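import Pool.Agent.H586.AF.C

/-!
AF-DE: derivative of the lattice energy at theta = 0 (helper200 for helper586)
-/

set_option autoImplicit false
set_option linter.unusedVariables false

open MeasureTheory Matrix Finset Filter Topology
open scoped Quaternion

namespace Pool.Agent.H200.AF

open Pool.Agent.H586.AF

noncomputable section

theorem un0 : un 0 = ⟨0, 1, 0, 0⟩ := rfl
theorem un1 : un 1 = ⟨0, 0, 1, 0⟩ := rfl
theorem un2 : un 2 = ⟨0, 0, 0, 1⟩ := rfl
theorem ph0 (q : ℍ[ℝ]) : ph 0 q = Real.sqrt 2 * q.imI := rfl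
theorem ph1 (q : ℍ[ℝ]) : ph 1 q = Real.sqrt 2 * q.imJ := rfl
theorem ph2 (q : ℍ[ℝ]) : ph 2 q = Real.sqrt 2 * q.imK := rfl

theorem cases3 (P : Fin 3 → Prop) (h0 : P 0) (h1 : P 1) (h2 : P 2) (j : Fin 3) : P j := by
  fin_cases j
  · exact h0
  · exact h1
  · exact h2

/-- the generator -/
def TT (j : Fin 3) : ℍ[ℝ] := (1 / Real.sqrt 2 : ℝ) • un j

theorem u0r : (un 0).re = 0 := rfl
theorem u0i : (un 0).imI = 1 := rfl
theorem u0j : (un 0).imJ = 0 := rfl
theorem u0k : (un 0).imK = 0 := rfl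
theorem u1r : (un 1).re = 0 := rfl
theorem u1i : (un 1).imI = 0 := rfl
theorem u1j : (un 1).imJ = 1 := rfl
theorem u1k : (un 1).imK = 0 := rfl
theorem u2r : (un 2).re = 0 := rfl
theorem u2i : (un 2).imI = 0 := rfl
theorem u2j : (un 2).imJ = 0 := rfl
theorem u2k : (un 2).imK = 1 := rfl

theorem un_re (j : Fin 3) : (un j).re = 0 := cases3 (fun j => (un j).re = 0) u0r u1r u2r j

theorem star_un (j : Fin 3) : star (un j) = -un j := by
  ext
  · rw [Quaternion.re_star, Quaternion.re_neg, un_re, neg_zero]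
  · simp
  · simp
  · simp

theorem star_rsmul (r : ℝ) (q : ℍ[ℝ]) : star (r • q) = r • star q := by
  ext <;> simp

theorem star_TT (j : Fin 3) : star (TT j) = -TT j := by
  unfold TT
  rw [star_rsmul, star_un, smul_neg]

theorem re_comm (p q : ℍ[ℝ]) : (p * q).re = (q * p).re := by
  simp only [Quaternion.re_mul]
  ring

theorem ph_TT (j : Fin 3) (u : ℍ[ℝ]) : ph j u = -(2 * (TT j * u).re) := by
  have h2 : Real.sqrt 2 * Real.sqrt 2 = 2 := Real.mul_self_sqrt (by norm_num)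
  have h3 : Real.sqrt 2 ≠ 0 := by positivity
  have h4 : (2 : ℝ) * (1 / Real.sqrt 2) = Real.sqrt 2 := by
    field_simp
    linarith [h2, sq (Real.sqrt 2)]
  have h5 : (TT j * u).re = (1 / Real.sqrt 2) * (un j * u).re := by
    unfold TT
    rw [smul_mul_assoc, Quaternion.re_smul, smul_eq_mul]
  rw [h5, ← mul_assoc, h4]
  refine cases3 (fun j => ph j u = -(Real.sqrt 2 * (un j * u).re)) ?_ ?_ ?_ j
  · rw [ph0, Quaternion.re_mul, u0r, u0i, u0j, u0k]; ring
  · rw [ph1, Quaternion.re_mul, u1r, u1i, u1j, u1k]; ring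
  · rw [ph2, Quaternion.re_mul, u2r, u2i, u2j, u2k]; ring

theorem ph_add (j : Fin 3) (u v : ℍ[ℝ]) : ph j (u + v) = ph j u + ph j v := by
  rw [ph_TT, ph_TT, ph_TT, mul_add, Quaternion.re_add]
  ring

theorem ph_sub (j : Fin 3) (u v : ℍ[ℝ]) : ph j (u - v) = ph j u - ph j v := by
  rw [ph_TT, ph_TT, ph_TT, mul_sub, Quaternion.re_sub]
  ring

theorem ph_one (j : Fin 3) : ph j 1 = 0 := by
  refine cases3 (fun j => ph j 1 = 0) ?_ ?_ ?_ j
  · rw [ph0]; simp
  · rw [ph1]; simp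
  · rw [ph2]; simp

theorem ph_star (j : Fin 3) (u : ℍ[ℝ]) : ph j (star u) = -ph j u := by
  refine cases3 (fun j => ph j (star u) = -ph j u) ?_ ?_ ?_ j
  · rw [ph0, ph0]; simp
  · rw [ph1, ph1]; simp
  · rw [ph2, ph2]; simp

theorem sq_norm_q (u : ℍ[ℝ]) : ‖u‖ ^ 2 = u.re ^ 2 + u.imI ^ 2 + u.imJ ^ 2 + u.imK ^ 2 := by
  rw [sq ‖u‖, ← Quaternion.normSq_eq_norm_mul_self u, Quaternion.normSq_def']

theorem ph_le (j : Fin 3) (u : ℍ[ℝ]) : |ph j u| ≤ 2 * ‖u‖ := by
  have h1 := sq_norm_q u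
  have h2 : Real.sqrt 2 ^ 2 = 2 := Real.sq_sqrt (by norm_num)
  have key : ∀ v : ℝ, v ^ 2 ≤ ‖u‖ ^ 2 → |Real.sqrt 2 * v| ≤ 2 * ‖u‖ := by
    intro v hv
    refine abs_le_of_sq_le_sq ?_ (by positivity)
    rw [mul_pow, mul_pow, h2]
    nlinarith [sq_nonneg v]
  refine cases3 (fun j => |ph j u| ≤ 2 * ‖u‖) ?_ ?_ ?_ j
  · rw [ph0]; exact key _ (by rw [h1]; nlinarith [sq_nonneg u.re, sq_nonneg u.imJ, sq_nonneg u.imK])
  · rw [ph1]; exact key _ (by rw [h1]; nlinarith [sq_nonneg u.re, sq_nonneg u.imI, sq_nonneg u.imK])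
  · rw [ph2]; exact key _ (by rw [h1]; nlinarith [sq_nonneg u.re, sq_nonneg u.imI, sq_nonneg u.imJ])

theorem cont_ph (j : Fin 3) : Continuous (ph j) := by
  have h : ph j = fun u => -(2 * (TT j * u).re) := funext (ph_TT j)
  rw [h]
  exact (continuous_const.mul (Quaternion.continuous_re.comp (continuous_const.mul continuous_id))).neg

/-- the real part as a continuous linear map -/
def reL : ℍ[ℝ] →L[ℝ] ℝ :=
  { toFun := fun q => q.re
    map_add' := fun p q => by simp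
    map_smul' := fun r q => by simp
    cont := Quaternion.continuous_re }

theorem hd_re {W : ℝ → ℍ[ℝ]} {W' : ℍ[ℝ]} {t : ℝ} (h : HasDerivAt W W' t) :
    HasDerivAt (fun t => (W t).re) W'.re t :=
  reL.hasFDerivAt.comp_hasDerivAt t h

/-- the star as a continuous linear map -/
def stL : ℍ[ℝ] →L[ℝ] ℍ[ℝ] :=
  { toFun := fun q => star q
    map_add' := fun p q => star_add p q
    map_smul' := fun r q => star_rsmul r q
    cont := continuous_star }

theorem hd_star {W : ℝ → ℍ[ℝ]} {W' : ℍ[ℝ]} {t : ℝ} (h : HasDerivAt W W' t) :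
    HasDerivAt (fun t => star (W t)) (star W') t :=
  stL.hasFDerivAt.comp_hasDerivAt t h

/-- the derivative of the energy of a plaquette -/
def dp (j : Fin 3) (α β γ δ : ℝ) (a b c d : ℍ[ℝ]) : ℝ :=
  α * ph j (a * b * star c * star d) + β * ph j (b * star c * star d * a) -
    γ * ph j (star d * a * b * star c) - δ * ph j (a * b * star c * star d)

theorem pe_deriv (j : Fin 3) {α β γ δ : ℝ} {A B C D : ℝ → ℍ[ℝ]}
    (hA : HasDerivAt A ((α • TT j) * A 0) 0) (hB : HasDerivAt B ((β • TT j) * B 0) 0)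
    (hC : HasDerivAt C ((γ • TT j) * C 0) 0) (hD : HasDerivAt D ((δ • TT j) * D 0) 0) :
    HasDerivAt (fun t => pe (A t) (B t) (C t) (D t)) (dp j α β γ δ (A 0) (B 0) (C 0) (D 0)) 0 := by
  have h1 := ((hd_re (((hA.mul hB).mul (hd_star hC)).mul (hd_star hD))).const_mul 2).const_sub 2
  have h2 : -(2 * ((((α • TT j) * A 0 * B 0 + A 0 * ((β • TT j) * B 0)) * star (C 0) +
      A 0 * B 0 * star ((γ • TT j) * C 0)) * star (D 0) +
      A 0 * B 0 * star (C 0) * star ((δ • TT j) * D 0)).re) =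
      dp j α β γ δ (A 0) (B 0) (C 0) (D 0) := by
    generalize A 0 = a
    generalize B 0 = b
    generalize C 0 = c
    generalize D 0 = d
    have e1 : ((α • TT j) * a * b * star c * star d).re =
        α * (TT j * (a * b * star c * star d)).re := by
      rw [smul_mul_assoc, smul_mul_assoc, smul_mul_assoc, smul_mul_assoc, Quaternion.re_smul,
        smul_eq_mul]
      simp only [mul_assoc]
    have e2 : (a * ((β • TT j) * b) * star c * star d).re =
        β * (TT j * (b * star c * star d * a)).re := by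
      have : a * ((β • TT j) * b) * star c * star d = a * ((β • TT j) * b * star c * star d) := by
        simp only [mul_assoc]
      rw [this, re_comm, smul_mul_assoc, smul_mul_assoc, smul_mul_assoc, smul_mul_assoc,
        Quaternion.re_smul, smul_eq_mul]
      simp only [mul_assoc]
    have e3 : (a * b * star ((γ • TT j) * c) * star d).re =
        -(γ * (TT j * (star d * a * b * star c)).re) := by
      have : a * b * star ((γ • TT j) * c) * star d =
          (a * b * star c) * (-(γ • (TT j * star d))) := by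
        rw [star_mul, star_rsmul, star_TT]
        simp only [mul_assoc, smul_neg, neg_mul, mul_neg, smul_mul_assoc]
      rw [this, re_comm, neg_mul, smul_mul_assoc, Quaternion.re_neg, Quaternion.re_smul, smul_eq_mul]
      simp only [mul_assoc]
    have e4 : (a * b * star c * star ((δ • TT j) * d)).re =
        -(δ * (TT j * (a * b * star c * star d)).re) := by
      have : a * b * star c * star ((δ • TT j) * d) =
          (a * b * star c * star d) * (-(δ • TT j)) := by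
        rw [star_mul, star_rsmul, star_TT]
        simp only [mul_assoc, smul_neg]
      rw [this, re_comm, neg_mul, smul_mul_assoc, Quaternion.re_neg, Quaternion.re_smul, smul_eq_mul]
    unfold dp
    rw [ph_TT j (a * b * star c * star d), ph_TT j (b * star c * star d * a),
      ph_TT j (star d * a * b * star c)]
    rw [add_mul, add_mul, add_mul, Quaternion.re_add, Quaternion.re_add, Quaternion.re_add, e1, e2,
      e3, e4]
    ring
  rw [← h2]
  exact h1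

/-- the linearization -/
theorem ph_lin (j : Fin 3) {p q r s : ℍ[ℝ]} (hp : ‖p‖ = 1) (hq : ‖q‖ = 1) (hr : ‖r‖ = 1) :
    |ph j (p * q * r * s) - (ph j p + ph j q + ph j r + ph j s)| ≤
      2 * (‖p - 1‖ + ‖q - 1‖ + ‖r - 1‖ + ‖s - 1‖) ^ 2 := by
  have h1 : ph j (p * q * r * s) - (ph j p + ph j q + ph j r + ph j s) =
      ph j ((p - 1) * (q - 1) + (p * q - 1) * (r - 1) + (p * q * r - 1) * (s - 1)) := by
    have h2 : (p - 1) * (q - 1) + (p * q - 1) * (r - 1) + (p * q * r - 1) * (s - 1) =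
        p * q * r * s - p - q - r - s + 1 + 1 + 1 := by
      noncomm_ring
    rw [h2, ph_add, ph_add, ph_add, ph_sub, ph_sub, ph_sub, ph_sub, ph_one]
    ring
  have hpq : ‖p * q - 1‖ ≤ ‖p - 1‖ + ‖q - 1‖ := by
    have h3 : p * q - 1 = p * (q - 1) + (p - 1) := by noncomm_ring
    rw [h3]
    refine (norm_add_le _ _).trans ?_
    rw [norm_mul, hp]
    linarith
  have hpqr : ‖p * q * r - 1‖ ≤ ‖p - 1‖ + ‖q - 1‖ + ‖r - 1‖ := by
    have h3 : p * q * r - 1 = p * q * (r - 1) + (p * q - 1) := by noncomm_ring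
    rw [h3]
    refine (norm_add_le _ _).trans ?_
    rw [norm_mul, norm_mul, hp, hq]
    linarith
  rw [h1]
  refine (ph_le j _).trans ?_
  have h4 : ‖(p - 1) * (q - 1) + (p * q - 1) * (r - 1) + (p * q * r - 1) * (s - 1)‖ ≤
      ‖p - 1‖ * ‖q - 1‖ + (‖p - 1‖ + ‖q - 1‖) * ‖r - 1‖ +
        (‖p - 1‖ + ‖q - 1‖ + ‖r - 1‖) * ‖s - 1‖ := by
    refine (norm_add₃_le).trans ?_
    rw [norm_mul, norm_mul, norm_mul]
    gcongr
  have := norm_nonneg (p - 1)
  have := norm_nonneg (q - 1)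
  have := norm_nonneg (r - 1)
  have := norm_nonneg (s - 1)
  nlinarith [mul_nonneg (norm_nonneg (p - 1)) (norm_nonneg (q - 1)),
    mul_nonneg (norm_nonneg (p - 1)) (norm_nonneg (r - 1)),
    mul_nonneg (norm_nonneg (q - 1)) (norm_nonneg (r - 1)),
    mul_nonneg (norm_nonneg (p - 1)) (norm_nonneg (s - 1)),
    mul_nonneg (norm_nonneg (q - 1)) (norm_nonneg (s - 1)),
    mul_nonneg (norm_nonneg (r - 1)) (norm_nonneg (s - 1)), sq_nonneg ‖p - 1‖, sq_nonneg ‖q - 1‖,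
    sq_nonneg ‖r - 1‖, sq_nonneg ‖s - 1‖]

theorem dp_bound (j : Fin 3) {α β γ δ S : ℝ} {a b c d : ℍ[ℝ]} (ha : ‖a‖ = 1) (hb : ‖b‖ = 1)
    (hc : ‖c‖ = 1) (hd : ‖d‖ = 1) (hα : |α| ≤ 1) (hβ : |β| ≤ 1) (hγ : |γ| ≤ 1) (hδ : |δ| ≤ 1)
    (sa : ‖a - 1‖ ≤ S) (sb : ‖b - 1‖ ≤ S) (sc : ‖c - 1‖ ≤ S) (sd : ‖d - 1‖ ≤ S) :
    |dp j α β γ δ a b c d - (α + β - γ - δ) * (ph j a + ph j b - ph j c - ph j d)| ≤
      128 * S ^ 2 := by
  have hc' : ‖star c‖ = 1 := by rw [norm_star, hc]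
  have hd' : ‖star d‖ = 1 := by rw [norm_star, hd]
  have sc' : ‖star c - 1‖ ≤ S := by
    have : star c - 1 = star (c - 1) := by rw [star_sub, star_one]
    rw [this, norm_star]
    exact sc
  have sd' : ‖star d - 1‖ ≤ S := by
    have : star d - 1 = star (d - 1) := by rw [star_sub, star_one]
    rw [this, norm_star]
    exact sd
  have hS : 0 ≤ S := (norm_nonneg _).trans sa
  have key : ∀ {p q r s : ℍ[ℝ]}, ‖p‖ = 1 → ‖q‖ = 1 → ‖r‖ = 1 → ‖p - 1‖ ≤ S → ‖q - 1‖ ≤ S →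
      ‖r - 1‖ ≤ S → ‖s - 1‖ ≤ S → ∀ {κ : ℝ}, |κ| ≤ 1 →
      |κ * ph j (p * q * r * s) - κ * (ph j p + ph j q + ph j r + ph j s)| ≤ 32 * S ^ 2 := by
    intro p q r s hp hq hr sp sq sr ss κ hκ
    rw [← mul_sub, abs_mul]
    have h1 := ph_lin j (s := s) hp hq hr
    have h2 : (‖p - 1‖ + ‖q - 1‖ + ‖r - 1‖ + ‖s - 1‖) ^ 2 ≤ (4 * S) ^ 2 :=
      pow_le_pow_left₀ (by positivity) (by linarith) 2
    have h3 : |ph j (p * q * r * s) - (ph j p + ph j q + ph j r + ph j s)| ≤ 32 * S ^ 2 := by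
      nlinarith
    calc |κ| * |ph j (p * q * r * s) - (ph j p + ph j q + ph j r + ph j s)| ≤ 1 * (32 * S ^ 2) :=
          mul_le_mul hκ h3 (abs_nonneg _) zero_le_one
      _ = 32 * S ^ 2 := one_mul _
  have k1 := key ha hb hc' sa sb sc' sd' hα
  have k2 := key hb hc' hd' sb sc' sd' sa hβ
  have k3 := key hd' ha hb sd' sa sb sc' hγ
  have k4 := key ha hb hc' sa sb sc' sd' hδ
  rw [ph_star, ph_star] at k1 k2 k3 k4
  rw [abs_le] at k1 k2 k3 k4 ⊢
  unfold dp
  constructor <;> nlinarith [k1.1, k1.2, k2.1, k2.2, k3.1, k3.2, k4.1, k4.2]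

/-! ### Sums over plaquettes -/

/-- a sum over at most `L ^ 4` plaquettes -/
def SP (L : ℕ) (s : (ℕ → ℕ → ℕ → ℕ → ℝ) → ℝ) : Prop :=
  ∃ S : Finset (ℕ × ℕ × ℕ × ℕ), (S.card : ℝ) ≤ (L : ℝ) ^ 4 ∧
    ∀ F, s F = ∑ q ∈ S, F q.1 q.2.1 q.2.2.1 q.2.2.2

theorem sp_of (L : ℕ) (A B C D : Finset ℕ) (hA : A.card ≤ L) (hB : B.card ≤ L) (hC : C.card ≤ L)
    (hD : D.card ≤ L) : SP L (fun F => ∑ x ∈ A, ∑ y ∈ B, ∑ z ∈ C, ∑ h ∈ D, F x y z h) := by
  refine ⟨A ×ˢ B ×ˢ C ×ˢ D, ?_, fun F => ?_⟩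
  · rw [card_product, card_product, card_product]
    have : A.card * (B.card * (C.card * D.card)) ≤ L * (L * (L * L)) := by gcongr
    have h2 : ((A.card * (B.card * (C.card * D.card)) : ℕ) : ℝ) ≤ ((L * (L * (L * L)) : ℕ) : ℝ) := by
      exact_mod_cast this
    refine h2.trans (le_of_eq ?_)
    push_cast
    ring
  · rw [sum_product]
    refine sum_congr rfl fun x _ => ?_
    rw [sum_product]
    refine sum_congr rfl fun y _ => ?_
    rw [sum_product]

theorem sp12 (L : ℕ) : SP L (s12 L) :=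
  sp_of L _ _ _ _ (by simp) (by simp) (by simp) (by simp)
theorem sp13 (L : ℕ) : SP L (s13 L) :=
  sp_of L _ _ _ _ (by simp) (by simp) (by simp) (by simp)
theorem sp23 (L : ℕ) : SP L (s23 L) :=
  sp_of L _ _ _ _ (by simp) (by simp) (by simp) (by simp)
theorem sp14 (L : ℕ) : SP L (s14 L) :=
  sp_of L _ _ _ _ (by simp) (by simp) (by simp) (by simp)
theorem sp24 (L : ℕ) : SP L (s24 L) :=
  sp_of L _ _ _ _ (by simp) (by simp) (by simp) (by simp)
theorem sp34 (L : ℕ) : SP L (s34 L) :=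
  sp_of L _ _ _ _ (by simp) (by simp) (by simp) (by simp)

theorem SP.deriv {L : ℕ} {s : (ℕ → ℕ → ℕ → ℕ → ℝ) → ℝ} (h : SP L s)
    {F : ℝ → ℕ → ℕ → ℕ → ℕ → ℝ} {F' : ℕ → ℕ → ℕ → ℕ → ℝ}
    (hF : ∀ x y z k, HasDerivAt (fun t => F t x y z k) (F' x y z k) 0) :
    HasDerivAt (fun t => s (F t)) (s F') 0 := by
  obtain ⟨S, -, hS⟩ := h
  rw [hS F']
  have h1 : (fun t => s (F t)) = fun t => ∑ q ∈ S, F t q.1 q.2.1 q.2.2.1 q.2.2.2 :=
    funext fun t => hS (F t)
  rw [h1]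
  exact HasDerivAt.fun_sum fun q _ => hF _ _ _ _

theorem SP.cont {L : ℕ} {s : (ℕ → ℕ → ℕ → ℕ → ℝ) → ℝ} (h : SP L s) {X : Type}
    [TopologicalSpace X] {F : X → ℕ → ℕ → ℕ → ℕ → ℝ}
    (hF : ∀ x y z k, Continuous (fun t => F t x y z k)) : Continuous (fun t => s (F t)) := by
  obtain ⟨S, -, hS⟩ := h
  have h1 : (fun t => s (F t)) = fun t => ∑ q ∈ S, F t q.1 q.2.1 q.2.2.1 q.2.2.2 :=
    funext fun t => hS (F t)
  rw [h1]
  exact continuous_finsetSum S fun q _ => hF _ _ _ _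

theorem SP.bound {L : ℕ} {s : (ℕ → ℕ → ℕ → ℕ → ℝ) → ℝ} (h : SP L s)
    {F G : ℕ → ℕ → ℕ → ℕ → ℝ} {B : ℝ} (hB : 0 ≤ B) (hF : ∀ x y z k, |F x y z k - G x y z k| ≤ B) :
    |s F - s G| ≤ (L : ℝ) ^ 4 * B := by
  obtain ⟨S, hc, hS⟩ := h
  rw [hS, hS, ← sum_sub_distrib]
  refine (abs_sum_le_sum_abs _ _).trans ?_
  refine (sum_le_sum fun q _ => hF _ _ _ _).trans ?_
  rw [sum_const, nsmul_eq_mul]
  exact mul_le_mul_of_nonneg_right hc hB

theorem SP.add {L : ℕ} {s : (ℕ → ℕ → ℕ → ℕ → ℝ) → ℝ} (h : SP L s)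
    (F G : ℕ → ℕ → ℕ → ℕ → ℝ) : s (fun x y z k => F x y z k + G x y z k) = s F + s G := by
  obtain ⟨S, hc, hS⟩ := h
  rw [hS, hS, hS, ← sum_add_distrib]

theorem SP.smul {L : ℕ} {s : (ℕ → ℕ → ℕ → ℕ → ℝ) → ℝ} (h : SP L s) (c : ℝ)
    (F : ℕ → ℕ → ℕ → ℕ → ℝ) : s (fun x y z k => c * F x y z k) = c * s F := by
  obtain ⟨S, hc, hS⟩ := h
  rw [hS, hS, mul_sum]

/-! ### Links -/

theorem coe_mulSU (p q : SU) : ((p * q : SU) : ℍ[ℝ]) = p * q := rfl

theorem norm_gq (a : Fin 3) (t : ℝ) : ‖gq a t‖ = 1 := by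
  have h1 : ‖gq a t‖ ^ 2 = 1 := by
    rw [sq_norm_q]
    have h2 := Real.cos_sq_add_sin_sq (t / Real.sqrt 2)
    have e0 : (gq a t).re = Real.cos (t / Real.sqrt 2) := by
      unfold gq
      rw [Quaternion.re_add, Quaternion.re_coe, Quaternion.re_smul, un_re, smul_eq_mul, mul_zero,
        add_zero]
    have e1 : (gq a t).imI = Real.sin (t / Real.sqrt 2) * (un a).imI := by
      unfold gq
      rw [Quaternion.imI_add, Quaternion.imI_coe, Quaternion.imI_smul, smul_eq_mul, zero_add]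
    have e2 : (gq a t).imJ = Real.sin (t / Real.sqrt 2) * (un a).imJ := by
      unfold gq
      rw [Quaternion.imJ_add, Quaternion.imJ_coe, Quaternion.imJ_smul, smul_eq_mul, zero_add]
    have e3 : (gq a t).imK = Real.sin (t / Real.sqrt 2) * (un a).imK := by
      unfold gq
      rw [Quaternion.imK_add, Quaternion.imK_coe, Quaternion.imK_smul, smul_eq_mul, zero_add]
    have e4 : (un a).imI ^ 2 + (un a).imJ ^ 2 + (un a).imK ^ 2 = 1 := by
      refine cases3 (fun a => (un a).imI ^ 2 + (un a).imJ ^ 2 + (un a).imK ^ 2 = 1) ?_ ?_ ?_ a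
      · rw [u0i, u0j, u0k]; norm_num
      · rw [u1i, u1j, u1k]; norm_num
      · rw [u2i, u2j, u2k]; norm_num
    rw [e0, e1, e2, e3]
    linear_combination h2 + Real.sin (t / Real.sqrt 2) ^ 2 * e4
  have h2 : 0 ≤ ‖gq a t‖ := norm_nonneg _
  nlinarith

theorem coe_gm (a : Fin 3) (t : ℝ) : ((gm a t : SU) : ℍ[ℝ]) = gq a t := by
  unfold gm
  rw [dif_pos (norm_gq a t)]

theorem gq_zero (a : Fin 3) : gq a 0 = 1 := by
  unfold gq
  rw [zero_div, Real.cos_zero, Real.sin_zero, zero_smul, add_zero]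
  rfl

theorem gm_zero (a : Fin 3) : gm a 0 = 1 := by
  apply Subtype.ext
  rw [coe_gm, gq_zero]
  rfl

theorem hd_gq (a : Fin 3) : HasDerivAt (fun t => gq a t) (TT a) 0 := by
  have h1 : (fun t => gq a t) = fun t => Real.cos (t / Real.sqrt 2) • (1 : ℍ[ℝ]) +
      Real.sin (t / Real.sqrt 2) • un a := by
    funext t
    unfold gq
    congr 1
    rw [← Algebra.algebraMap_eq_smul_one]
    rfl
  rw [h1]
  have h2 : HasDerivAt (fun t : ℝ => t / Real.sqrt 2) (1 / Real.sqrt 2) 0 :=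
    (hasDerivAt_id 0).div_const _
  have h3 := (h2.cos.smul_const (1 : ℍ[ℝ])).add (h2.sin.smul_const (un a))
  rw [zero_div, Real.sin_zero, Real.cos_zero] at h3
  have h4 : (-0 * (1 / Real.sqrt 2)) • (1 : ℍ[ℝ]) + (1 * (1 / Real.sqrt 2)) • un a = TT a := by
    unfold TT
    rw [neg_zero, zero_mul, zero_smul, zero_add, one_mul]
  rw [h4] at h3
  exact h3

variable {L : ℕ}

theorem hd_sh (l : IH L) (a : Fin 3) (σ : IH L → SU) (l' : IH L) :
    HasDerivAt (fun t => ((sh l a t σ l' : SU) : ℍ[ℝ]))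
      ((((Pi.single l 1 : IH L → ℝ) l') • TT a) * (σ l' : ℍ[ℝ])) 0 := by
  by_cases h : l' = l
  · subst h
    rw [Pi.single_eq_same, one_smul]
    have h1 : (fun t => ((sh l' a t σ l' : SU) : ℍ[ℝ])) = fun t => gq a t * (σ l' : ℍ[ℝ]) := by
      funext t
      unfold sh
      rw [Function.update_self, coe_mulSU, coe_gm]
    rw [h1]
    exact (hd_gq a).mul_const _
  · rw [Pi.single_eq_of_ne h, zero_smul, zero_mul]
    have h1 : (fun t => ((sh l a t σ l' : SU) : ℍ[ℝ])) = fun t => (σ l' : ℍ[ℝ]) := by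
      funext t
      unfold sh
      rw [Function.update_of_ne h]
    rw [h1]
    exact hasDerivAt_const _ _

theorem sh_zero (l : IH L) (a : Fin 3) (σ : IH L → SU) : sh l a 0 σ = σ := by
  unfold sh
  rw [gm_zero, one_mul, Function.update_eq_self]

theorem sz_nonneg (σ : IH L → SU) : 0 ≤ sz σ := sum_nonneg fun l _ => norm_nonneg _

theorem sz_ge (σ : IH L → SU) (l : IH L) : ‖((σ l : SU) : ℍ[ℝ]) - 1‖ ≤ sz σ :=
  single_le_sum (f := fun l => ‖((σ l : SU) : ℍ[ℝ]) - 1‖) (fun l _ => norm_nonneg _) (mem_univ l)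

theorem norm_SU (q : SU) : ‖(q : ℍ[ℝ])‖ = 1 := by
  have := q.2
  rwa [mem_sphere_zero_iff_norm] at this

/-- a link variable, with the coefficient of the shift and the value of the field -/
structure Lk (l : IH L) (a : Fin 3) (U : (IH L → SU) → ℍ[ℝ]) (e : ℝ)
    (φ : (IH L → SU) → ℝ) : Prop where
  der : ∀ σ, HasDerivAt (fun t => U (sh l a t σ)) ((e • TT a) * U σ) 0
  cont : Continuous U
  nrm : ∀ σ, ‖U σ‖ = 1
  bd : ∀ σ, ‖U σ - 1‖ ≤ sz σ
  e1 : |e| ≤ 1
  ph : ∀ σ, ph a (U σ) = φ σ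

theorem lk_one (l : IH L) (a : Fin 3) : Lk l a (fun _ => 1) 0 (fun _ => 0) where
  der := fun σ => by
    rw [zero_smul, zero_mul]
    exact hasDerivAt_const _ _
  cont := continuous_const
  nrm := fun σ => norm_one
  bd := fun σ => by
    rw [sub_self, norm_zero]
    exact sz_nonneg σ
  e1 := by simp
  ph := fun σ => ph_one a

theorem lk_link (l : IH L) (a : Fin 3) (l' : IH L) :
    Lk l a (fun σ => ((σ l' : SU) : ℍ[ℝ])) ((Pi.single l 1 : IH L → ℝ) l')
      (fun σ => ph a (σ l' : SU)) where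
  der := fun σ => hd_sh l a σ l'
  cont := continuous_subtype_val.comp (continuous_apply l')
  nrm := fun σ => norm_SU _
  bd := fun σ => sz_ge σ l'
  e1 := by
    by_cases h : l' = l
    · rw [h, Pi.single_eq_same, abs_one]
    · rw [Pi.single_eq_of_ne h, abs_zero]
      exact zero_le_one
  ph := fun σ => rfl

/-- the field `ph a` -/
def phf (a : Fin 3) (σ : IH L → SU) : IH L → ℝ := fun l => ph a (σ l : SU)

theorem lk1 (l : IH L) (a : Fin 3) (x y z h : ℕ) :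
    Lk l a (fun σ => ex1 L (fun i => ((σ (Sum.inl i) : SU) : ℍ[ℝ])) 1 x y z h)
      (ex1 L (fun i => (Pi.single l 1 : IH L → ℝ) (Sum.inl i)) 0 x y z h)
      (fun σ => ex1 L (fun i => phf a σ (Sum.inl i)) 0 x y z h) := by
  unfold ex1
  by_cases c : (x < L ∧ y - 1 < L - 1 ∧ z - 1 < L - 1 ∧ h - 1 < L) ∧ 1 ≤ y ∧ 1 ≤ z ∧ 1 ≤ h
  · simp only [dif_pos c]
    exact lk_link l a _
  · simp only [dif_neg c]
    exact lk_one l a

theorem lk2 (l : IH L) (a : Fin 3) (x y z h : ℕ) :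
    Lk l a (fun σ => ex2 L (fun i => ((σ (Sum.inr (Sum.inl i)) : SU) : ℍ[ℝ])) 1 x y z h)
      (ex2 L (fun i => (Pi.single l 1 : IH L → ℝ) (Sum.inr (Sum.inl i))) 0 x y z h)
      (fun σ => ex2 L (fun i => phf a σ (Sum.inr (Sum.inl i))) 0 x y z h) := by
  unfold ex2
  by_cases c : (x - 1 < L - 1 ∧ y < L ∧ z - 1 < L - 1 ∧ h - 1 < L) ∧ 1 ≤ x ∧ 1 ≤ z ∧ 1 ≤ h
  · simp only [dif_pos c]
    exact lk_link l a _
  · simp only [dif_neg c]
    exact lk_one l a

theorem lk3 (l : IH L) (a : Fin 3) (x y z h : ℕ) :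
    Lk l a (fun σ => ex3 L (fun i => ((σ (Sum.inr (Sum.inr i)) : SU) : ℍ[ℝ])) 1 x y z h)
      (ex3 L (fun i => (Pi.single l 1 : IH L → ℝ) (Sum.inr (Sum.inr i))) 0 x y z h)
      (fun σ => ex3 L (fun i => phf a σ (Sum.inr (Sum.inr i))) 0 x y z h) := by
  unfold ex3
  by_cases c : (x - 1 < L - 1 ∧ y - 1 < L - 1 ∧ z < L ∧ h - 1 < L) ∧ 1 ≤ x ∧ 1 ≤ y ∧ 1 ≤ h
  · simp only [dif_pos c]
    exact lk_link l a _
  · simp only [dif_neg c]
    exact lk_one l a

/-- one plaquette -/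
theorem plaq (l : IH L) (j : Fin 3) {A B C D : (IH L → SU) → ℍ[ℝ]} {α β γ δ : ℝ}
    {fA fB fC fD : (IH L → SU) → ℝ} (hA : Lk l j A α fA) (hB : Lk l j B β fB) (hC : Lk l j C γ fC)
    (hD : Lk l j D δ fD) :
    (∀ σ, HasDerivAt (fun t => pe (A (sh l j t σ)) (B (sh l j t σ)) (C (sh l j t σ))
      (D (sh l j t σ))) (dp j α β γ δ (A σ) (B σ) (C σ) (D σ)) 0) ∧
    (Continuous fun σ => dp j α β γ δ (A σ) (B σ) (C σ) (D σ)) ∧
    ∀ σ, |dp j α β γ δ (A σ) (B σ) (C σ) (D σ) - (α + β - γ - δ) * (fA σ + fB σ - fC σ - fD σ)| ≤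
      128 * sz σ ^ 2 := by
  refine ⟨fun σ => ?_, ?_, fun σ => ?_⟩
  · have h := pe_deriv j (α := α) (β := β) (γ := γ) (δ := δ) (A := fun t => A (sh l j t σ))
      (B := fun t => B (sh l j t σ)) (C := fun t => C (sh l j t σ)) (D := fun t => D (sh l j t σ))
    simp only [sh_zero] at h
    exact h (hA.der σ) (hB.der σ) (hC.der σ) (hD.der σ)
  · have cA := hA.cont
    have cB := hB.cont
    have cC := continuous_star.comp hC.cont
    have cD := continuous_star.comp hD.cont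
    unfold dp
    exact (((continuous_const.mul ((cont_ph j).comp (((cA.mul cB).mul cC).mul cD))).add
      (continuous_const.mul ((cont_ph j).comp (((cB.mul cC).mul cD).mul cA)))).sub
      (continuous_const.mul ((cont_ph j).comp (((cD.mul cA).mul cB).mul cC)))).sub
      (continuous_const.mul ((cont_ph j).comp (((cA.mul cB).mul cC).mul cD)))
  · rw [← hA.ph σ, ← hB.ph σ, ← hC.ph σ, ← hD.ph σ]
    exact dp_bound j (hA.nrm σ) (hB.nrm σ) (hC.nrm σ) (hD.nrm σ) hA.e1 hB.e1 hC.e1 hD.e1 (hA.bd σ)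
      (hB.bd σ) (hC.bd σ) (hD.bd σ)

/-! ### Assembly -/

/-- extended links, direction 1 -/
abbrev U1 (σ : IH L → SU) (x y z h : ℕ) : ℍ[ℝ] :=
  ex1 L (fun i => ((σ (Sum.inl i) : SU) : ℍ[ℝ])) 1 x y z h
/-- direction 2 -/
abbrev U2 (σ : IH L → SU) (x y z h : ℕ) : ℍ[ℝ] :=
  ex2 L (fun i => ((σ (Sum.inr (Sum.inl i)) : SU) : ℍ[ℝ])) 1 x y z h
/-- direction 3 -/
abbrev U3 (σ : IH L → SU) (x y z h : ℕ) : ℍ[ℝ] :=
  ex3 L (fun i => ((σ (Sum.inr (Sum.inr i)) : SU) : ℍ[ℝ])) 1 x y z h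

/-- extended real fields, direction 1 -/
abbrev F1 (f : IH L → ℝ) (x y z h : ℕ) : ℝ := ex1 L (fun i => f (Sum.inl i)) 0 x y z h
/-- direction 2 -/
abbrev F2 (f : IH L → ℝ) (x y z h : ℕ) : ℝ := ex2 L (fun i => f (Sum.inr (Sum.inl i))) 0 x y z h
/-- direction 3 -/
abbrev F3 (f : IH L → ℝ) (x y z h : ℕ) : ℝ := ex3 L (fun i => f (Sum.inr (Sum.inr i))) 0 x y z h

theorem F1_add (f g : IH L → ℝ) (x y z h : ℕ) : F1 (f + g) x y z h = F1 f x y z h + F1 g x y z h := by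
  unfold F1 ex1
  split_ifs
  · rfl
  · rw [add_zero]
theorem F2_add (f g : IH L → ℝ) (x y z h : ℕ) : F2 (f + g) x y z h = F2 f x y z h + F2 g x y z h := by
  unfold F2 ex2
  split_ifs
  · rfl
  · rw [add_zero]
theorem F3_add (f g : IH L → ℝ) (x y z h : ℕ) : F3 (f + g) x y z h = F3 f x y z h + F3 g x y z h := by
  unfold F3 ex3
  split_ifs
  · rfl
  · rw [add_zero]

theorem F1_cast (f : IH L → ℝ) (x y z h : ℕ) :
    ex1 L (fun i => ((f (Sum.inl i) : ℝ) : ℂ)) 0 x y z h = ((F1 f x y z h : ℝ) : ℂ) := by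
  unfold F1 ex1
  split_ifs
  · rfl
  · rw [Complex.ofReal_zero]
theorem F2_cast (f : IH L → ℝ) (x y z h : ℕ) :
    ex2 L (fun i => ((f (Sum.inr (Sum.inl i)) : ℝ) : ℂ)) 0 x y z h = ((F2 f x y z h : ℝ) : ℂ) := by
  unfold F2 ex2
  split_ifs
  · rfl
  · rw [Complex.ofReal_zero]
theorem F3_cast (f : IH L → ℝ) (x y z h : ℕ) :
    ex3 L (fun i => ((f (Sum.inr (Sum.inr i)) : ℝ) : ℂ)) 0 x y z h = ((F3 f x y z h : ℝ) : ℂ) := by
  unfold F3 ex3
  split_ifs
  · rfl
  · rw [Complex.ofReal_zero]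

/-- the bilinear form -/
def BF (f g : IH L → ℝ) : ℝ :=
  s12 L (fun x y z h => (F1 f x y z h + F2 f (x + 1) y z h - F1 f x (y + 1) z h - F2 f x y z h) *
    (F1 g x y z h + F2 g (x + 1) y z h - F1 g x (y + 1) z h - F2 g x y z h)) +
  s13 L (fun x y z h => (F1 f x y z h + F3 f (x + 1) y z h - F1 f x y (z + 1) h - F3 f x y z h) *
    (F1 g x y z h + F3 g (x + 1) y z h - F1 g x y (z + 1) h - F3 g x y z h)) +
  s23 L (fun x y z h => (F2 f x y z h + F3 f x (y + 1) z h - F2 f x y (z + 1) h - F3 f x y z h) *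
    (F2 g x y z h + F3 g x (y + 1) z h - F2 g x y (z + 1) h - F3 g x y z h)) +
  s14 L (fun x y z h => (F1 f x y z h + 0 - F1 f x y z (h + 1) - 0) *
    (F1 g x y z h + 0 - F1 g x y z (h + 1) - 0)) +
  s24 L (fun x y z h => (F2 f x y z h + 0 - F2 f x y z (h + 1) - 0) *
    (F2 g x y z h + 0 - F2 g x y z (h + 1) - 0)) +
  s34 L (fun x y z h => (F3 f x y z h + 0 - F3 f x y z (h + 1) - 0) *
    (F3 g x y z h + 0 - F3 g x y z (h + 1) - 0))

theorem pol {s : (ℕ → ℕ → ℕ → ℕ → ℝ) → ℝ} (hs : SP L s) {K A B : ℕ → ℕ → ℕ → ℕ → ℝ}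
    (hK : ∀ x y z h, K x y z h = A x y z h + B x y z h) :
    s (fun x y z h => K x y z h * K x y z h) = s (fun x y z h => A x y z h * A x y z h) +
      2 * s (fun x y z h => A x y z h * B x y z h) + s (fun x y z h => B x y z h * B x y z h) := by
  rw [← hs.smul, ← hs.add, ← hs.add]
  congr 1
  funext x y z h
  rw [hK]
  ring

theorem BF_pol (f g : IH L → ℝ) : BF (f + g) (f + g) = BF f f + 2 * BF f g + BF g g := by
  unfold BF
  rw [pol (sp12 L) (K := fun x y z h => F1 (f + g) x y z h + F2 (f + g) (x + 1) y z h -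
      F1 (f + g) x (y + 1) z h - F2 (f + g) x y z h)
    (A := fun x y z h => F1 f x y z h + F2 f (x + 1) y z h - F1 f x (y + 1) z h - F2 f x y z h)
    (B := fun x y z h => F1 g x y z h + F2 g (x + 1) y z h - F1 g x (y + 1) z h - F2 g x y z h)
    (fun x y z h => by rw [F1_add, F2_add, F1_add, F2_add]; ring),
    pol (sp13 L) (K := fun x y z h => F1 (f + g) x y z h + F3 (f + g) (x + 1) y z h -
      F1 (f + g) x y (z + 1) h - F3 (f + g) x y z h)
    (A := fun x y z h => F1 f x y z h + F3 f (x + 1) y z h - F1 f x y (z + 1) h - F3 f x y z h)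
    (B := fun x y z h => F1 g x y z h + F3 g (x + 1) y z h - F1 g x y (z + 1) h - F3 g x y z h)
    (fun x y z h => by rw [F1_add, F3_add, F1_add, F3_add]; ring),
    pol (sp23 L) (K := fun x y z h => F2 (f + g) x y z h + F3 (f + g) x (y + 1) z h -
      F2 (f + g) x y (z + 1) h - F3 (f + g) x y z h)
    (A := fun x y z h => F2 f x y z h + F3 f x (y + 1) z h - F2 f x y (z + 1) h - F3 f x y z h)
    (B := fun x y z h => F2 g x y z h + F3 g x (y + 1) z h - F2 g x y (z + 1) h - F3 g x y z h)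
    (fun x y z h => by rw [F2_add, F3_add, F2_add, F3_add]; ring),
    pol (sp14 L) (K := fun x y z h => F1 (f + g) x y z h + 0 - F1 (f + g) x y z (h + 1) - 0)
    (A := fun x y z h => F1 f x y z h + 0 - F1 f x y z (h + 1) - 0)
    (B := fun x y z h => F1 g x y z h + 0 - F1 g x y z (h + 1) - 0)
    (fun x y z h => by rw [F1_add, F1_add]; ring),
    pol (sp24 L) (K := fun x y z h => F2 (f + g) x y z h + 0 - F2 (f + g) x y z (h + 1) - 0)
    (A := fun x y z h => F2 f x y z h + 0 - F2 f x y z (h + 1) - 0)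
    (B := fun x y z h => F2 g x y z h + 0 - F2 g x y z (h + 1) - 0)
    (fun x y z h => by rw [F2_add, F2_add]; ring),
    pol (sp34 L) (K := fun x y z h => F3 (f + g) x y z h + 0 - F3 (f + g) x y z (h + 1) - 0)
    (A := fun x y z h => F3 f x y z h + 0 - F3 f x y z (h + 1) - 0)
    (B := fun x y z h => F3 g x y z h + 0 - F3 g x y z (h + 1) - 0)
    (fun x y z h => by rw [F3_add, F3_add]; ring)]
  ring

theorem ee_zero (x : ℝ) : ee 0 x = 1 := by
  unfold ee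
  simp

theorem nsq (r : ℝ) : ‖(r : ℂ)‖ ^ 2 = r * r := by
  rw [Complex.norm_real, Real.norm_eq_abs, sq_abs, sq]

theorem q12_real (x a b c d : ℝ) : q12 0 x a b c d = (1 / 2) * ((a + b - c - d) * (a + b - c - d)) := by
  unfold q12
  rw [ee_zero, ee_zero, ee_zero, ee_zero, nsq, nsq, nsq, nsq, zero_div, Real.cos_zero]
  have h1 : (-(1 * (c : ℂ) * star (d : ℂ)) - 1 * (a : ℂ) * star (b : ℂ) + (b : ℂ) * star (d : ℂ) +
      1 * (b : ℂ) * star (c : ℂ) + 1 * (a : ℂ) * star (d : ℂ) + 1 * (a : ℂ) * star (c : ℂ)) =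
      ((-(c * d) - a * b + b * d + b * c + a * d + a * c : ℝ) : ℂ) := by
    simp only [Complex.star_def, Complex.conj_ofReal]
    push_cast
    ring
  rw [h1, Complex.ofReal_re]
  ring

theorem q23_real (x a b c d : ℝ) : q23 0 x a b c d = (1 / 2) * ((a + b - c - d) * (a + b - c - d)) := by
  unfold q23
  rw [ee_zero, ee_zero]
  have h1 : (a : ℂ) - c + 1 * (b : ℂ) - 1 * (d : ℂ) = ((a + b - c - d : ℝ) : ℂ) := by
    push_cast
    ring
  rw [h1, nsq]

theorem qf_real (f : IH L → ℝ) : qf L 0 (fun l => (f l : ℂ)) = (1 / 2) * BF f f := by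
  unfold qf BF
  simp only [F1_cast, F2_cast, F3_cast, q12_real, q23_real]
  rw [mul_add, mul_add, mul_add, mul_add, mul_add, ← (sp12 L).smul, ← (sp13 L).smul,
    ← (sp23 L).smul, ← (sp14 L).smul, ← (sp24 L).smul, ← (sp34 L).smul]
  congr 1
  · congr 1
    · congr 1
      · congr 1
        · congr 1
          congr 1
          funext x y z h
          rw [← Complex.ofReal_add, ← Complex.ofReal_sub, ← Complex.ofReal_sub, nsq]
      · congr 1
        funext x y z h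
        rw [← Complex.ofReal_sub, nsq]
        ring
    · congr 1
      funext x y z h
      rw [← Complex.ofReal_sub, nsq]
      ring
  · congr 1
    funext x y z h
    rw [← Complex.ofReal_sub, nsq]
    ring

theorem hf_real (A : Matrix (IH L) (IH L) ℝ) (f : IH L → ℝ) :
    hf (fun l => (f l : ℂ)) (cx A) (fun l => (f l : ℂ)) = ∑ i, ∑ j, f i * A i j * f j := by
  unfold hf
  rw [Complex.re_sum]
  refine sum_congr rfl fun i _ => ?_
  rw [Complex.re_sum]
  refine sum_congr rfl fun j _ => ?_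
  have h1 : star ((f i : ℝ) : ℂ) * (cx A) i j * ((f j : ℝ) : ℂ) = ((f i * A i j * f j : ℝ) : ℂ) := by
    simp only [Complex.star_def, Complex.conj_ofReal, cx, Matrix.map_apply]
    push_cast
    ring
  rw [h1, Complex.ofReal_re]

theorem BF_eq (hQF : S_QF) (hHR : S_HR) (hL : 2 ≤ L) (f : IH L → ℝ) :
    BF f f = ∑ i, ∑ j, f i * mA L i j * f j := by
  obtain ⟨C, hC⟩ := hHR
  have h1 := hQF L hL 0 (fun l => (f l : ℂ))
  rw [qf_real, (hC L hL).1, hf_real] at h1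
  linarith

theorem BF_single (hQF : S_QF) (hHR : S_HR) (hL : 2 ≤ L) (l : IH L) (g : IH L → ℝ) :
    BF (Pi.single l 1) g = ∑ j, mA L l j * g j := by
  have h1 := BF_pol (Pi.single l (1 : ℝ)) g
  rw [BF_eq hQF hHR hL, BF_eq hQF hHR hL, BF_eq hQF hHR hL] at h1
  obtain ⟨C, hC⟩ := hHR
  have hsym : ∀ i j, mA L i j = mA L j i := fun i j => by
    have := (hC L hL).2.1
    exact (congrFun (congrFun this i) j).symm
  have h2 : ∑ i, ∑ j, (Pi.single l (1 : ℝ) : IH L → ℝ) i * mA L i j * g j = ∑ j, mA L l j * g j := by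
    rw [sum_eq_single l]
    · refine sum_congr rfl fun j _ => ?_
      rw [Pi.single_eq_same, one_mul]
    · intro i _ hi
      refine sum_eq_zero fun j _ => ?_
      rw [Pi.single_eq_of_ne hi, zero_mul, zero_mul]
    · intro h
      exact absurd (mem_univ l) h
  have h3 : ∑ i, ∑ j, g i * mA L i j * (Pi.single l (1 : ℝ) : IH L → ℝ) j =
      ∑ i, ∑ j, (Pi.single l (1 : ℝ) : IH L → ℝ) i * mA L i j * g j := by
    rw [sum_comm]
    refine sum_congr rfl fun i _ => sum_congr rfl fun j _ => ?_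
    rw [hsym j i]
    ring
  have h4 : ∑ i, ∑ j, (Pi.single l (1 : ℝ) + g : IH L → ℝ) i * mA L i j *
      (Pi.single l (1 : ℝ) + g : IH L → ℝ) j =
      ∑ i, ∑ j, (Pi.single l (1 : ℝ) : IH L → ℝ) i * mA L i j * (Pi.single l (1 : ℝ) : IH L → ℝ) j +
      ∑ i, ∑ j, (Pi.single l (1 : ℝ) : IH L → ℝ) i * mA L i j * g j +
      ∑ i, ∑ j, g i * mA L i j * (Pi.single l (1 : ℝ) : IH L → ℝ) j +
      ∑ i, ∑ j, g i * mA L i j * g j := by
    simp only [← sum_add_distrib]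
    refine sum_congr rfl fun i _ => sum_congr rfl fun j _ => ?_
    rw [Pi.add_apply, Pi.add_apply]
    ring
  rw [h4, h3, h2] at h1
  linarith

theorem bg_zero (x : ℝ) : bg 0 x = 1 := by
  unfold bg
  rw [zero_mul, zero_div, Real.cos_zero, Real.sin_zero]
  rfl

theorem en_zero (σ : IH L → SU) : en L 0 σ = wil L (U1 σ) (U2 σ) (U3 σ) (fun _ _ _ _ => 1) := by
  unfold en
  simp only [bg_zero, one_mul, mul_one]

/-- the derivative of the energy -/
def DD (l : IH L) (a : Fin 3) (σ : IH L → SU) : ℝ :=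
  let e : IH L → ℝ := Pi.single l 1
  s12 L (fun x y z h => dp a (F1 e x y z h) (F2 e (x + 1) y z h) (F1 e x (y + 1) z h) (F2 e x y z h)
    (U1 σ x y z h) (U2 σ (x + 1) y z h) (U1 σ x (y + 1) z h) (U2 σ x y z h)) +
  s13 L (fun x y z h => dp a (F1 e x y z h) (F3 e (x + 1) y z h) (F1 e x y (z + 1) h) (F3 e x y z h)
    (U1 σ x y z h) (U3 σ (x + 1) y z h) (U1 σ x y (z + 1) h) (U3 σ x y z h)) +
  s23 L (fun x y z h => dp a (F2 e x y z h) (F3 e x (y + 1) z h) (F2 e x y (z + 1) h) (F3 e x y z h)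
    (U2 σ x y z h) (U3 σ x (y + 1) z h) (U2 σ x y (z + 1) h) (U3 σ x y z h)) +
  s14 L (fun x y z h => dp a (F1 e x y z h) 0 (F1 e x y z (h + 1)) 0
    (U1 σ x y z h) 1 (U1 σ x y z (h + 1)) 1) +
  s24 L (fun x y z h => dp a (F2 e x y z h) 0 (F2 e x y z (h + 1)) 0
    (U2 σ x y z h) 1 (U2 σ x y z (h + 1)) 1) +
  s34 L (fun x y z h => dp a (F3 e x y z h) 0 (F3 e x y z (h + 1)) 0
    (U3 σ x y z h) 1 (U3 σ x y z (h + 1)) 1)

theorem DD_deriv (l : IH L) (a : Fin 3) (σ : IH L → SU) :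
    HasDerivAt (fun t => en L 0 (sh l a t σ)) (DD l a σ) 0 := by
  have h0 : (fun t => en L 0 (sh l a t σ)) = fun t => wil L (U1 (sh l a t σ)) (U2 (sh l a t σ))
      (U3 (sh l a t σ)) (fun _ _ _ _ => 1) := funext fun t => en_zero _
  rw [h0]
  unfold wil DD
  exact (((((sp12 L).deriv fun x y z h =>
      (plaq l a (lk1 l a x y z h) (lk2 l a (x + 1) y z h) (lk1 l a x (y + 1) z h)
        (lk2 l a x y z h)).1 σ).fun_add
    ((sp13 L).deriv fun x y z h =>
      (plaq l a (lk1 l a x y z h) (lk3 l a (x + 1) y z h) (lk1 l a x y (z + 1) h)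
        (lk3 l a x y z h)).1 σ)).fun_add
    ((sp23 L).deriv fun x y z h =>
      (plaq l a (lk2 l a x y z h) (lk3 l a x (y + 1) z h) (lk2 l a x y (z + 1) h)
        (lk3 l a x y z h)).1 σ)).fun_add
    ((sp14 L).deriv fun x y z h =>
      (plaq l a (lk1 l a x y z h) (lk_one l a) (lk1 l a x y z (h + 1)) (lk_one l a)).1 σ)).fun_add
    ((sp24 L).deriv fun x y z h =>
      (plaq l a (lk2 l a x y z h) (lk_one l a) (lk2 l a x y z (h + 1)) (lk_one l a)).1 σ) |>.fun_add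
    ((sp34 L).deriv fun x y z h =>
      (plaq l a (lk3 l a x y z h) (lk_one l a) (lk3 l a x y z (h + 1)) (lk_one l a)).1 σ)

theorem DD_cont (l : IH L) (a : Fin 3) : Continuous (DD l a) := by
  unfold DD
  exact (((((sp12 L).cont fun x y z h =>
      (plaq l a (lk1 l a x y z h) (lk2 l a (x + 1) y z h) (lk1 l a x (y + 1) z h)
        (lk2 l a x y z h)).2.1).add
    ((sp13 L).cont fun x y z h =>
      (plaq l a (lk1 l a x y z h) (lk3 l a (x + 1) y z h) (lk1 l a x y (z + 1) h)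
        (lk3 l a x y z h)).2.1)).add
    ((sp23 L).cont fun x y z h =>
      (plaq l a (lk2 l a x y z h) (lk3 l a x (y + 1) z h) (lk2 l a x y (z + 1) h)
        (lk3 l a x y z h)).2.1)).add
    ((sp14 L).cont fun x y z h =>
      (plaq l a (lk1 l a x y z h) (lk_one l a) (lk1 l a x y z (h + 1)) (lk_one l a)).2.1)).add
    ((sp24 L).cont fun x y z h =>
      (plaq l a (lk2 l a x y z h) (lk_one l a) (lk2 l a x y z (h + 1)) (lk_one l a)).2.1) |>.add
    ((sp34 L).cont fun x y z h =>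
      (plaq l a (lk3 l a x y z h) (lk_one l a) (lk3 l a x y z (h + 1)) (lk_one l a)).2.1)

theorem DD_bound (l : IH L) (a : Fin 3) (σ : IH L → SU) :
    |DD l a σ - BF (Pi.single l 1) (phf a σ)| ≤ 768 * (L : ℝ) ^ 4 * sz σ ^ 2 := by
  have hB : (0 : ℝ) ≤ 128 * sz σ ^ 2 := by positivity
  have b1 := (sp12 L).bound hB fun x y z h =>
      (plaq l a (lk1 l a x y z h) (lk2 l a (x + 1) y z h) (lk1 l a x (y + 1) z h)
        (lk2 l a x y z h)).2.2 σ
  have b2 := (sp13 L).bound hB fun x y z h =>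
      (plaq l a (lk1 l a x y z h) (lk3 l a (x + 1) y z h) (lk1 l a x y (z + 1) h)
        (lk3 l a x y z h)).2.2 σ
  have b3 := (sp23 L).bound hB fun x y z h =>
      (plaq l a (lk2 l a x y z h) (lk3 l a x (y + 1) z h) (lk2 l a x y (z + 1) h)
        (lk3 l a x y z h)).2.2 σ
  have b4 := (sp14 L).bound hB fun x y z h =>
      (plaq l a (lk1 l a x y z h) (lk_one l a) (lk1 l a x y z (h + 1)) (lk_one l a)).2.2 σ
  have b5 := (sp24 L).bound hB fun x y z h =>
      (plaq l a (lk2 l a x y z h) (lk_one l a) (lk2 l a x y z (h + 1)) (lk_one l a)).2.2 σ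
  have b6 := (sp34 L).bound hB fun x y z h =>
      (plaq l a (lk3 l a x y z h) (lk_one l a) (lk3 l a x y z (h + 1)) (lk_one l a)).2.2 σ
  rw [abs_le] at b1 b2 b3 b4 b5 b6 ⊢
  unfold DD BF
  constructor
  · linarith [b1.1, b2.1, b3.1, b4.1, b5.1, b6.1]
  · linarith [b1.2, b2.2, b3.2, b4.2, b5.2, b6.2]

/-- AF-DE -/
theorem tde (hQF : S_QF) (hHR : S_HR) : S_DE := by
  refine ⟨768, fun L hL l a => ⟨DD l a, DD_cont l a, fun σ => ⟨DD_deriv l a σ, ?_⟩⟩⟩
  have h1 := DD_bound l a σ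
  rw [BF_single hQF hHR hL] at h1
  exact h1

end

end Pool.Agent.H200.AF
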